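import Pool.Agent.Helper64.HG.Stmts

set_option autoImplicit false

/-! MP_866009_co: a vertex whose non-neighbours form several pieces. -/

namespace Pool.Agent.Helper64.HG

theorem step1_rep {V : Type} {G : SimpleGraph V} {K N : Set V} {q L R : V → ℝ}
    (h : Rep G K N q L R) :
    Rep G K N (fun x => - q x) (fun x => - R x) (fun x => - L x) where
  lt k hk := neg_lt_neg (h.lt k hk)
  injq n hn n' hn' e := h.injq n hn n' hn' (neg_injective e)
  injL k hk k' hk' e := h.injR k hk k' hk' (neg_injective e)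
  injR k hk k' hk' e := h.injL k hk k' hk' (neg_injective e)
  neLR k hk k' hk' e := h.neLR k' hk' k hk (neg_injective e).symm
  neL n hn k hk e := h.neR n hn k hk (neg_injective e)
  neR n hn k hk e := h.neL n hn k hk (neg_injective e)
  adjK k hk k' hk' := by
    rw [h.adjK k hk k' hk']
    unfold Ovl
    simp only [neg_lt_neg_iff]
    constructor
    · rintro (⟨a, b, c⟩ | ⟨a, b, c⟩)
      · exact Or.inr ⟨c, b, a⟩
      · exact Or.inl ⟨c, b, a⟩
    · rintro (⟨a, b, c⟩ | ⟨a, b, c⟩)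
      · exact Or.inr ⟨c, b, a⟩
      · exact Or.inl ⟨c, b, a⟩
  adjN n hn k hk := by
    rw [h.adjN n hn k hk]
    simp only [neg_lt_neg_iff]
    exact and_comm

theorem step1_symm {V : Type} {G : SimpleGraph V} {v : V} {K : Set V} {q : V → ℝ} {a b : V}
    (h : Cons G v K q a b) : Cons G v K q b a :=
  ⟨h.2.1, h.1, h.2.2.1.symm, fun n hn hb => h.2.2.2 n hn (Or.symm hb)⟩

/-- two elements consecutive to `a` are on different sides of `a` -/
theorem step1_two {V : Type} {G : SimpleGraph V} {v : V} {K : Set V} {q : V → ℝ} {a b c : V}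
    (hinj : ∀ x ∈ Att G v K, ∀ y ∈ Att G v K, q x = q y → x = y)
    (h1 : Cons G v K q a b) (h2 : Cons G v K q a c) (hbc : b ≠ c) :
    (q b < q a ∧ q a < q c) ∨ (q c < q a ∧ q a < q b) := by
  obtain ⟨ha, hb, hab, n1⟩ := h1
  obtain ⟨-, hc, hac, n2⟩ := h2
  have e1 : q a ≠ q b := fun e => hab (hinj a ha b hb e)
  have e2 : q a ≠ q c := fun e => hac (hinj a ha c hc e)
  have e3 : q b ≠ q c := fun e => hbc (hinj b hb c hc e)
  have m1 := n1 c hc
  have m2 := n2 b hb
  unfold Btw at m1 m2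
  push Not at m1 m2
  rcases lt_or_gt_of_ne e1 with h | h <;> rcases lt_or_gt_of_ne e2 with h' | h'
  · rcases lt_or_gt_of_ne e3 with h'' | h''
    · exact absurd h'' (not_lt.2 (m2.1 h))
    · exact absurd h'' (not_lt.2 (m1.1 h'))
  · exact Or.inr ⟨h', h⟩
  · exact Or.inl ⟨h, h'⟩
  · rcases lt_or_gt_of_ne e3 with h'' | h''
    · exact absurd h' (not_lt.2 (m1.2 h''))
    · exact absurd h (not_lt.2 (m2.2 h''))

/-- the relation `Lam` as a graph on the neighbours of `v` -/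
def step1_H {V : Type} (G : SimpleGraph V) (v : V) {ι : Type} (K : ι → Set V) (q : ι → V → ℝ) :
    SimpleGraph {n : V // G.Adj v n} where
  Adj a b := Lam G v K q a.1 b.1
  symm := ⟨fun _ _ h => by
    obtain ⟨i, hi⟩ := h
    exact ⟨i, step1_symm hi⟩⟩
  loopless := ⟨fun _ h => by
    obtain ⟨i, hi⟩ := h
    exact hi.2.2.1 rfl⟩

theorem st_STEP1 (h1 : ST_LOC) (h2 : ST_CON1) (h3 : ST_CON2) (h4 : ST_CON3) (h5 : ST_LAM)
    (h6 : ST_INTV) (h7 : ST_SID) (h8 : ST_GL) : ST_STEP1 := by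
  classical
  intro V _ G v hg hobs hTC hprop hdis
  obtain ⟨ι, hι, K, q, L, R, hrep, hloc, hcov, hatt, hnb, hcut⟩ := h1 V G v hg hTC hdis hprop
  have oT : ¬ HasT G := fun h => hobs (Or.inl h)
  have oB : ¬ HasB G := fun h => hobs (Or.inr (Or.inl h))
  have oE : ¬ HasE G := fun h => hobs (Or.inr (Or.inr (Or.inl h)))
  have oW : ¬ HasW G := fun h => hobs (Or.inr (Or.inr (Or.inr (Or.inl h))))
  have oK : ¬ HasK G := fun h => hobs (Or.inr (Or.inr (Or.inr (Or.inr h))))
  have hother : ∀ i n, ∃ a ∈ Att G v (K i), a ≠ n := by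
    intro i n
    obtain ⟨a, ha, b, hb, hab⟩ := hatt i
    by_cases h : a = n
    · exact ⟨b, hb, fun e => hab (h.trans e.symm)⟩
    · exact ⟨a, ha, h⟩
  -- (1)
  have three : ∀ i j k, i ≠ j → i ≠ k → j ≠ k → ∀ n, n ∈ Att G v (K i) → n ∈ Att G v (K j) →
      n ∈ Att G v (K k) → False := by
    intro i j k hij hik hjk n e1 e2 e3
    rcases h2 V G v ι K q hg hloc i j k hij hik hjk n e1 e2 e3 (hother i n) (hother j n)
      (hother k n) with h | h | h
    · exact oT h
    · exact oB h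
    · exact oE h
  -- (2)
  have aux : ∀ i k a b c d, b ≠ c → b ≠ d → c ≠ d → Cons G v (K i) (q i) a b →
      Cons G v (K i) (q i) a c → Cons G v (K k) (q k) a d → False := by
    intro i k a b c d hbc hbd hcd e1 e2 e3
    by_cases hik : i = k
    · subst hik
      have f1 := step1_two (hloc.inj i) e1 e2 hbc
      have f2 := step1_two (hloc.inj i) e1 e3 hbd
      have f3 := step1_two (hloc.inj i) e2 e3 hcd
      rcases f1 with f1 | f1 <;> rcases f2 with f2 | f2 <;> rcases f3 with f3 | f3 <;>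
        linarith [f1.1, f1.2, f2.1, f2.2, f3.1, f3.2]
    · rcases h3 V G v ι K q hg hloc i k hik b c d a hbc hbd.symm hcd.symm (step1_symm e1) e2 e3
        with h | h
      · exact oE h
      · exact oW h
  obtain ⟨H, hH⟩ : ∃ H, H = step1_H G v K q := ⟨_, rfl⟩
  have hHadj : ∀ a b, H.Adj a b ↔ Lam G v K q a.1 b.1 := by
    intro a b
    rw [hH]
    exact Iff.rfl
  have hdeg : ∀ a b c d, H.Adj a b → H.Adj a c → H.Adj a d → (b = c ∨ c = d ∨ b = d) := by
    intro a b c d e1 e2 e3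
    by_contra hcon
    push Not at hcon
    obtain ⟨c1, c2, c3⟩ := hcon
    have c1' : b.1 ≠ c.1 := fun e => c1 (Subtype.ext e)
    have c2' : c.1 ≠ d.1 := fun e => c2 (Subtype.ext e)
    have c3' : b.1 ≠ d.1 := fun e => c3 (Subtype.ext e)
    obtain ⟨i, hi⟩ := (hHadj a b).1 e1
    obtain ⟨j, hj⟩ := (hHadj a c).1 e2
    obtain ⟨k, hk⟩ := (hHadj a d).1 e3
    by_cases hij : i = j
    · subst hij
      exact aux i k a b c d c1' c3' c2' hi hj hk
    by_cases hik : i = k
    · subst hik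
      exact aux i j a b d c c3' c1' c2'.symm hi hk hj
    by_cases hjk : j = k
    · subst hjk
      exact aux j i a c d b c2' c1'.symm c3'.symm hj hk hi
    exact three i j k hij hik hjk a hi.1 hj.1 hk.1
  -- (3)
  have hfar : ∃ x, x ∈ Far G v := by
    by_contra hcon
    push Not at hcon
    exact hdis fun x => (hcon x.1 x.2).elim
  obtain ⟨x0, hx0⟩ := hfar
  have hnbr : ∃ n, G.Adj v n := by
    have := hTC.1 v x0
    obtain ⟨w⟩ := this
    cases w with
    | nil => exact (hx0.1 rfl).elim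
    | cons h _ => exact ⟨_, h⟩
  obtain ⟨n0, hn0⟩ := hnbr
  haveI : Nonempty {n : V // G.Adj v n} := ⟨⟨n0, hn0⟩⟩
  have hconn : H.Connected := by
    refine ⟨?_⟩
    intro a b
    by_contra hcon
    obtain ⟨a', b', f1, f2, f3, f4, f5⟩ := hcut {n | ∃ h : G.Adj v n, H.Reachable a ⟨n, h⟩}
      ⟨a.1, a.2, a.2, SimpleGraph.Reachable.refl _⟩
      ⟨b.1, b.2, fun ⟨_, h⟩ => hcon h⟩
    obtain ⟨_, g3⟩ := f3
    apply f4
    refine ⟨f2, g3.trans ?_⟩
    exact SimpleGraph.Adj.reachable ((hHadj _ _).2 f5)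
  -- (4)
  rcases h5 {n : V // G.Adj v n} H hconn hdeg with ⟨pos0, hpi, hpa⟩ | ⟨m, hm, z, hz, hza⟩
  swap
  · exfalso
    rcases h4 V G v ι K q m (fun i => (z i).1) hg hloc
      (fun x => hprop _ (fun e => by
        have : x ∈ ({x} : Set V)ᶜ := by rw [e]; exact Set.mem_univ x
        exact this rfl)) hm
      (fun i j e => hz.1 (Subtype.ext e))
      (fun n => ⟨fun h => by
        obtain ⟨i, hi⟩ := hz.2 ⟨n, h⟩
        exact ⟨i, by rw [hi]⟩, fun ⟨i, hi⟩ => by
        rw [← hi]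
        exact (z i).2⟩)
      (fun i j => by rw [← hHadj (z i) (z j), hza]) with h | h
    · exact oW h
    · exact oK h
  obtain ⟨pos, hpos⟩ : ∃ pos : V → ℤ, ∀ n (h : G.Adj v n), pos n = pos0 ⟨n, h⟩ :=
    ⟨fun n => if h : G.Adj v n then pos0 ⟨n, h⟩ else 0, fun n h => by simp only [dif_pos h]⟩
  have posinj : ∀ a b, G.Adj v a → G.Adj v b → pos a = pos b → a = b := by
    intro a b ha hb e
    rw [hpos a ha, hpos b hb] at e
    exact congrArg Subtype.val (hpi e)
  have hadj : ∀ i a b, Cons G v (K i) (q i) a b → (pos b = pos a + 1 ∨ pos a = pos b + 1) := by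
    intro i a b h
    have ha : G.Adj v a := h.1.1
    have hb : G.Adj v b := h.2.1.1
    have := (hpa ⟨a, ha⟩ ⟨b, hb⟩).1 ((hHadj _ _).2 ⟨i, h⟩)
    rw [hpos a ha, hpos b hb]
    exact this
  -- (5)
  have hint : ∀ i, ((∀ a ∈ Att G v (K i), ∀ b ∈ Att G v (K i), (q i a < q i b ↔ pos a < pos b)) ∨
      (∀ a ∈ Att G v (K i), ∀ b ∈ Att G v (K i), (q i a < q i b ↔ pos b < pos a))) ∧
      (∀ a ∈ Att G v (K i), ∀ b ∈ Att G v (K i), ∀ m : ℤ, pos a ≤ m → m ≤ pos b →
        ∃ n ∈ Att G v (K i), pos n = m) := by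
    intro i
    apply h6 V (Att G v (K i)) (q i) pos (Set.toFinite _)
    · intro a ha b hb e
      exact hloc.inj i a ha b hb e
    · intro a ha b hb e
      exact posinj a b ha.1 hb.1 e
    · intro a ha b hb hab hn
      exact hadj i a b ⟨ha, hb, hab, hn⟩
  have hq : ∀ i, ∃ q' L' R' : V → ℝ, Rep G (K i) (Att G v (K i)) q' L' R' ∧
      ∀ a ∈ Att G v (K i), ∀ b ∈ Att G v (K i), (q' a < q' b ↔ pos a < pos b) := by
    intro i
    rcases (hint i).1 with h | h
    · exact ⟨q i, L i, R i, hrep i, h⟩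
    · refine ⟨_, _, _, step1_rep (hrep i), ?_⟩
      intro a ha b hb
      rw [neg_lt_neg_iff]
      exact h b hb a ha
  choose q' L' R' hrep' hmono using hq
  have hs : ∀ i, ∃ a ∈ Att G v (K i), ∀ b ∈ Att G v (K i), pos a ≤ pos b := by
    intro i
    obtain ⟨a, ha, -⟩ := hatt i
    exact Set.exists_min_image _ pos (Set.toFinite _) ⟨a, ha⟩
  have he : ∀ i, ∃ a ∈ Att G v (K i), ∀ b ∈ Att G v (K i), pos b ≤ pos a := by
    intro i
    obtain ⟨a, ha, -⟩ := hatt i
    exact Set.exists_max_image _ pos (Set.toFinite _) ⟨a, ha⟩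
  choose s hs1 hs2 using hs
  choose e he1 he2 using he
  have hmem : ∀ i (m : ℤ), pos (s i) ≤ m → m ≤ pos (e i) → ∃ n ∈ Att G v (K i), pos n = m :=
    fun i m => (hint i).2 (s i) (hs1 i) (e i) (he1 i) m
  have hAtt : ∀ i n, G.Adj v n → pos (s i) ≤ pos n → pos n ≤ pos (e i) → n ∈ Att G v (K i) := by
    intro i n hn n1 n2
    obtain ⟨n', h', e'⟩ := hmem i (pos n) n1 n2
    rw [← posinj n' n h'.1 hn e']
    exact h'
  -- (6)
  obtain ⟨σ, hσ⟩ := h7 ι (fun i => pos (s i)) (fun i => pos (e i))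
    (fun i => hs2 i _ (he1 i)) (by
      rintro i j k hij hik hjk m ⟨m1, m2, m3, m4, m5, m6⟩
      obtain ⟨n, hn, en⟩ := hmem i m m1 m2
      subst en
      exact three i j k hij hik hjk n hn (hAtt j n hn.1 m3 m4) (hAtt k n hn.1 m5 m6))
  -- (7)
  have hκ : ∀ x, ∃ i, x ∈ Far G v → x ∈ K i := by
    intro x
    by_cases hx : x ∈ Far G v
    · obtain ⟨i, hi⟩ := hcov x hx
      exact ⟨i, fun _ => hi⟩
    · obtain ⟨i, -⟩ := hcov x0 hx0
      exact ⟨i, fun h => (hx h).elim⟩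
  choose κ hκ using hκ
  have huniq : ∀ i j x, x ∈ K i → x ∈ K j → i = j := by
    intro i j x e1 e2
    by_contra hij
    exact (hloc.sep i j hij x e1 x e2).1 rfl
  have hK : ∀ i, {k | k ∈ Far G v ∧ κ k = i} = K i := by
    intro i
    ext k
    constructor
    · rintro ⟨k1, rfl⟩
      exact hκ k k1
    · intro hk
      have hf := hloc.sub i hk
      exact ⟨hf, huniq _ _ k (hκ k hf) hk⟩
  have hN : ∀ i, {n | G.Adj v n ∧ pos (s i) ≤ pos n ∧ pos n ≤ pos (e i)} = Att G v (K i) := by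
    intro i
    ext n
    constructor
    · rintro ⟨n1, n2, n3⟩
      exact hAtt i n n1 n2 n3
    · intro hn
      exact ⟨hn.1, hs2 i n hn, he2 i n hn⟩
  refine h8 V G v ι κ pos (fun i => pos (s i)) (fun i => pos (e i)) σ q' L' R' ?_ posinj ?_ ?_
    (fun i => hs2 i _ (he1 i)) hσ ?_ ?_
  · intro a b ha hb
    exact hg.1 a v b ha.symm hb
  · intro x hx y hy hxy
    by_contra hne
    exact (hloc.sep _ _ hne x (hκ x hx) y (hκ y hy)).2 hxy
  · intro n hn k hk hnk
    have : n ∈ Att G v (K (κ k)) := ⟨hn, k, hκ k hk, hnk⟩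
    exact ⟨hs2 _ n this, he2 _ n this⟩
  · intro i
    rw [hK i]
    change Rep G (K i) {n | G.Adj v n ∧ pos (s i) ≤ pos n ∧ pos n ≤ pos (e i)} _ _ _
    rw [hN i]
    exact hrep' i
  · intro i a b ha hb a1 a2 b1 b2
    exact hmono i a (hAtt i a ha a1 a2) b (hAtt i b hb b1 b2)

end Pool.Agent.Helper64.HG
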